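import Pool.Agent.Y990.CB.Stm2
import Pool.Agent.Y990.CB.PartC

set_option autoImplicit false

open MeasureTheory Set

/-!
Polynomial lower bound for connections inside boxes at the critical point (job CB-TAU).
-/

namespace Pool.Agent.Y529.CB

open Pool.Agent.Y990.CB
open Pool.Agent.W783.PC (pm DepOn Inc)

noncomputable section

variable {d : ℕ}

/-! ### Harris inequality for connections -/

lemma harris_fin (M : Mod d) (p : unitInterval) {S : Set M.ι} (hS : S.Finite)
    {A B : Set (M.ι → Bool)} (hA : DepOn A S) (hB : DepOn B S) (iA : Inc A) (iB : Inc B) :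
    (mu M p).real A * (mu M p).real B ≤ (mu M p).real (A ∩ B) := by
  have hA' : DepOn A (hS.toFinset : Set M.ι) := by rwa [hS.coe_toFinset]
  have hB' : DepOn B (hS.toFinset : Set M.ι) := by rwa [hS.coe_toFinset]
  exact Pool.Agent.W333.PC.s_harris M.ι (fun _ => p) hS.toFinset A B hA' hB' iA iB

lemma Cn_trans (M : Mod d) (p : unitInterval) {R : Set (Z d)} (hR : R.Finite) (x w y : Z d) :
    (mu M p).real (Cn M R x w) * (mu M p).real (Cn M R w y) ≤ (mu M p).real (Cn M R x y) := by
  refine (harris_fin M p (In_fin M hR) (Cn_dep M R x w) (Cn_dep M R w y) (Cn_inc M R x w)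
    (Cn_inc M R w y)).trans (measureReal_mono ?_ (measure_ne_top _ _))
  rintro ω ⟨h1, h2⟩
  exact SimpleGraph.Reachable.trans h1 h2

lemma Cn_mono (M : Mod d) (p : unitInterval) {R R' : Set (Z d)} (h : R ⊆ R') (x y : Z d) :
    (mu M p).real (Cn M R x y) ≤ (mu M p).real (Cn M R' x y) :=
  measureReal_mono (fun _ hω => reach_mono h hω) (measure_ne_top _ _)

lemma Cn_self (M : Mod d) (p : unitInterval) (R : Set (Z d)) (x : Z d) :
    (mu M p).real (Cn M R x x) = 1 := by
  have : Cn M R x x = univ := by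
    ext ω
    simp only [mem_univ, iff_true]
    exact SimpleGraph.Reachable.refl _
  rw [this]
  simp

/-! ### One edge -/

lemma meas_coord (M : Mod d) (c : M.ι) : MeasurableSet {ω : M.ι → Bool | ω c = true} := by
  have h' : MeasurableSet ((fun f : M.ι → Bool => f c) ⁻¹' {true}) :=
    measurable_pi_apply c (measurableSet_singleton true)
  exact h'

lemma mu_coord (M : Mod d) (p : unitInterval) (c : M.ι) :
    (mu M p).real {ω | ω c = true} = p := by
  have e : {ω : M.ι → Bool | ω c = true} = (fun f : M.ι → Bool => f c) ⁻¹' {true} := rfl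
  have h2 : (mu M p).map (fun f : M.ι → Bool => f c) = Pool.Agent.W783.PC.bern p := by
    unfold mu pm
    exact (measurePreserving_eval_infinitePi
      (fun _ : M.ι => Pool.Agent.W783.PC.bern p) c).map_eq
  rw [e, Measure.real, ← Measure.map_apply (measurable_pi_apply c) (measurableSet_singleton true),
    h2]
  unfold Pool.Agent.W783.PC.bern
  simp
  exact p.2.1

lemma pow_le_open (M : Mod d) (p : unitInterval) (F : Finset M.ι) :
    (p : ℝ) ^ F.card ≤ (mu M p).real {ω | ∀ c ∈ F, ω c = true} := by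
  classical
  induction F using Finset.induction_on with
  | empty => simp
  | insert c F hc ih =>
    rw [Finset.card_insert_of_notMem hc, pow_succ]
    have hS : ((insert c F : Finset M.ι) : Set M.ι).Finite := Finset.finite_toSet _
    have dA : DepOn {ω : M.ι → Bool | ∀ c ∈ F, ω c = true} ((insert c F : Finset M.ι) : Set M.ι) := by
      intro ω ω' h
      constructor
      · intro h1 c' hc'
        rw [← h c' (by simp [hc'])]
        exact h1 c' hc'
      · intro h1 c' hc'
        rw [h c' (by simp [hc'])]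
        exact h1 c' hc'
    have dB : DepOn {ω : M.ι → Bool | ω c = true} ((insert c F : Finset M.ι) : Set M.ι) := by
      intro ω ω' h
      show ω c = true ↔ ω' c = true
      rw [h c (by simp)]
    have iA : Inc {ω : M.ι → Bool | ∀ c ∈ F, ω c = true} :=
      fun ω ω' h hω c' hc' => h c' (hω c' hc')
    have iB : Inc {ω : M.ι → Bool | ω c = true} := fun ω ω' h hω => h c hω
    have h1 := harris_fin M p hS dA dB iA iB
    rw [mu_coord] at h1
    refine (mul_le_mul_of_nonneg_right ih p.2.1).trans (h1.trans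
      (measureReal_mono ?_ (measure_ne_top _ _)))
    rintro ω ⟨h2, h3⟩ c' hc'
    rcases Finset.mem_insert.1 hc' with rfl | h4
    · exact h3
    · exact h2 c' h4

lemma edge_le (M : Mod d) (p : unitInterval) {R : Set (Z d)} {x y : Z d} (h : Nb x y)
    (hx : x ∈ R) (hy : y ∈ R) : (p : ℝ) ^ 2 ≤ (mu M p).real (Cn M R x y) := by
  calc (p : ℝ) ^ 2 ≤ (p : ℝ) ^ (M.nd x y).card := pow_le_pow_of_le_one p.2.1 p.2.2 (M.card x y)
    _ ≤ (mu M p).real {ω | ∀ c ∈ M.nd x y, ω c = true} := pow_le_open M p _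
    _ ≤ _ := by
      refine measureReal_mono ?_ (measure_ne_top _ _)
      intro ω hω
      have h1 : (G M ω R).Adj x y := ⟨h, hx, hy, hω⟩
      exact h1.reachable

/-! ### Symmetries fixing the origin -/

lemma Cn_sym (M : Mod d) (p : unitInterval) (σ : Z d ≃ Z d) (hσ : ∀ x y, Nb (σ x) (σ y) ↔ Nb x y)
    (R : Set (Z d)) (x y : Z d) :
    (mu M p).real (Cn M (σ '' R) (σ x) (σ y)) = (mu M p).real (Cn M R x y) := by
  rw [← mu_inv_real M p σ (Cn_meas M R x y)]
  congr 1
  ext ω
  exact (reach_sym M σ hσ ω R x y).symm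

/-- The exchange of two coordinates. -/
def sw (i j : Fin d) : Z d ≃ Z d where
  toFun x := fun l => x (Equiv.swap i j l)
  invFun x := fun l => x (Equiv.swap i j l)
  left_inv x := by funext l; simp
  right_inv x := by funext l; simp

lemma sw_apply (i j : Fin d) (x : Z d) (l : Fin d) : sw i j x l = x (Equiv.swap i j l) := rfl

lemma sw_Nb (i j : Fin d) (x y : Z d) : Nb (sw i j x) (sw i j y) ↔ Nb x y := by
  unfold Nb
  have h1 : ∑ l, |sw i j x l - sw i j y l| = ∑ l, |x l - y l| :=
    Equiv.sum_comp (Equiv.swap i j) (fun l => |x l - y l|)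
  rw [h1]

/-- The reflection in a coordinate. -/
def rf (i : Fin d) : Z d ≃ Z d where
  toFun x := fun l => if l = i then - x l else x l
  invFun x := fun l => if l = i then - x l else x l
  left_inv x := by
    funext l
    by_cases h : l = i <;> simp [h]
  right_inv x := by
    funext l
    by_cases h : l = i <;> simp [h]

lemma rf_apply (i : Fin d) (x : Z d) (l : Fin d) : rf i x l = if l = i then - x l else x l := rfl

lemma rf_abs (i : Fin d) (x y : Z d) (l : Fin d) : |rf i x l - rf i y l| = |x l - y l| := by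
  rw [rf_apply, rf_apply]
  by_cases h : l = i
  · rw [if_pos h, if_pos h, ← neg_sub', abs_neg]
  · rw [if_neg h, if_neg h]

lemma rf_Nb (i : Fin d) (x y : Z d) : Nb (rf i x) (rf i y) ↔ Nb x y := by
  unfold Nb
  rw [Finset.sum_congr rfl fun l _ => rf_abs i x y l]

lemma rf_zero (i : Fin d) : rf i (0 : Z d) = 0 := by
  funext l
  rw [rf_apply]
  simp

lemma sw_zero (i j : Fin d) : sw i j (0 : Z d) = 0 := rfl

lemma image_Bo (σ : Z d ≃ Z d) (L : ℕ) (h : ∀ x, σ x ∈ Bo (0 : Z d) L ↔ x ∈ Bo (0 : Z d) L) :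
    σ '' Bo 0 L = Bo 0 L := by
  ext x
  constructor
  · rintro ⟨y, hy, rfl⟩
    exact (h y).2 hy
  · intro hx
    refine ⟨σ.symm x, ?_, Equiv.apply_symm_apply _ _⟩
    rw [← h, Equiv.apply_symm_apply]
    exact hx

lemma sw_mem (i j : Fin d) (L : ℕ) (x : Z d) : sw i j x ∈ Bo (0 : Z d) L ↔ x ∈ Bo (0 : Z d) L := by
  constructor
  · intro h l
    have h1 := h (Equiv.swap i j l)
    rw [sw_apply, Equiv.swap_apply_self] at h1
    exact h1
  · intro h l
    exact h _

lemma rf_mem (i : Fin d) (L : ℕ) (x : Z d) : rf i x ∈ Bo (0 : Z d) L ↔ x ∈ Bo (0 : Z d) L := by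
  have h0 : ∀ l, |rf i x l - (0 : Z d) l| = |x l - (0 : Z d) l| := by
    intro l
    have := rf_abs i x 0 l
    rwa [rf_zero] at this
  constructor
  · intro h l
    rw [← h0]
    exact h l
  · intro h l
    rw [h0]
    exact h l

lemma Cn_sw (M : Mod d) (p : unitInterval) (i j : Fin d) (L : ℕ) (w : Z d) :
    (mu M p).real (Cn M (Bo 0 L) 0 (sw i j w)) = (mu M p).real (Cn M (Bo 0 L) 0 w) := by
  have h := Cn_sym M p (sw i j) (sw_Nb i j) (Bo 0 L) 0 w
  rwa [image_Bo _ L (sw_mem i j L), sw_zero] at h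

lemma Cn_rf (M : Mod d) (p : unitInterval) (i : Fin d) (L : ℕ) (w : Z d) :
    (mu M p).real (Cn M (Bo 0 L) 0 (rf i w)) = (mu M p).real (Cn M (Bo 0 L) 0 w) := by
  have h := Cn_sym M p (rf i) (rf_Nb i) (Bo 0 L) 0 w
  rwa [image_Bo _ L (rf_mem i L), rf_zero] at h

/-! ### A vertex of the frame -/

/-- The lower bound. -/
def ql (d l : ℕ) : ℝ := 1 / (2 * d * (2 * l + 1) ^ d)

lemma ql_pos {d : ℕ} (hd : 1 ≤ d) (l : ℕ) : 0 < ql d l := by
  unfold ql
  have : (0 : ℝ) < d := by exact_mod_cast hd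
  positivity

lemma ql_le_one {d : ℕ} (hd : 1 ≤ d) (l : ℕ) : ql d l ≤ 1 := by
  unfold ql
  have h1 : (1 : ℝ) ≤ d := by exact_mod_cast hd
  have h2 : (1 : ℝ) ≤ (2 * l + 1) ^ d := one_le_pow₀ (by
    have : (0 : ℝ) ≤ l := Nat.cast_nonneg _
    linarith)
  rw [div_le_one (by positivity)]
  nlinarith

lemma ql_anti {d : ℕ} (hd : 1 ≤ d) {l n : ℕ} (h : l ≤ n) : ql d n ≤ ql d l := by
  unfold ql
  have h1 : (1 : ℝ) ≤ d := by exact_mod_cast hd
  have h3 : (l : ℝ) ≤ n := by exact_mod_cast h
  have h4 : (0 : ℝ) ≤ l := Nat.cast_nonneg _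
  apply one_div_le_one_div_of_le (by positivity)
  apply mul_le_mul_of_nonneg_left _ (by positivity)
  exact pow_le_pow_left₀ (by positivity) (by linarith) _

lemma exists_frame (hphi : S_phi) (hd : 1 ≤ d) (M : Mod d) (hM : Nd M) (l : ℕ) :
    ∃ w ∈ Fr (0 : Z d) l, ql d l ≤ (mu M (pc M)).real (Cn M (Bo 0 l) 0 w) := by
  classical
  by_contra hcon
  push Not at hcon
  have h1 := hphi d M l hd hM
  have hmem : ∀ x ∈ Ff (0 : Z d) l, x ∈ Bf (0 : Z d) l ∧ x ∈ Fr (0 : Z d) l := by
    intro x hx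
    unfold Ff at hx
    exact Finset.mem_filter.1 hx
  have hcard : (Ff (0 : Z d) l).card ≤ (2 * l + 1) ^ d := by
    rw [← card_Bf (0 : Z d) l]
    exact Finset.card_le_card (fun x hx => (hmem x hx).1)
  have hd0 : (0 : ℝ) < d := by exact_mod_cast hd
  rcases (Ff (0 : Z d) l).eq_empty_or_nonempty with he | hne
  · rw [he, Finset.sum_empty, mul_zero] at h1
    linarith
  · have h2 : ∑ x ∈ Ff (0 : Z d) l, (mu M (pc M)).real (Cn M (Bo 0 l) 0 x) <
        ∑ _x ∈ Ff (0 : Z d) l, ql d l :=
      Finset.sum_lt_sum_of_nonempty hne (fun x hx => hcon x (hmem x hx).2)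
    rw [Finset.sum_const, nsmul_eq_mul] at h2
    have h3 : ((Ff (0 : Z d) l).card : ℝ) ≤ (2 * l + 1) ^ d := by exact_mod_cast hcard
    have h4 : ((Ff (0 : Z d) l).card : ℝ) * ql d l ≤ (2 * l + 1) ^ d * ql d l :=
      mul_le_mul_of_nonneg_right h3 (ql_pos hd l).le
    have h5 : 2 * (d : ℝ) * ((2 * l + 1) ^ d * ql d l) = 1 := by
      unfold ql
      field_simp
    have h6 : 2 * (d : ℝ) * ∑ x ∈ Ff (0 : Z d) l, (mu M (pc M)).real (Cn M (Bo 0 l) 0 x) <
        2 * (d : ℝ) * ((2 * l + 1) ^ d * ql d l) :=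
      mul_lt_mul_of_pos_left (h2.trans_le h4) (by positivity)
    linarith

lemma axis (hphi : S_phi) (hd : 1 ≤ d) (M : Mod d) (hM : Nd M) (l : ℕ) (i : Fin d) (s : ℤ)
    (hs : s = 1 ∨ s = -1) :
    ∃ w ∈ Bo (0 : Z d) l, w i = s * l ∧ ql d l ≤ (mu M (pc M)).real (Cn M (Bo 0 l) 0 w) := by
  obtain ⟨w0, hw0, hq⟩ := exists_frame hphi hd M hM l
  obtain ⟨hB, j, hj⟩ := hw0
  rw [Pi.zero_apply, sub_zero] at hj
  have hB1 : sw i j w0 ∈ Bo (0 : Z d) l := (sw_mem i j l w0).2 hB
  have hv : sw i j w0 i = w0 j := by rw [sw_apply, Equiv.swap_apply_left]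
  have hq1 : ql d l ≤ (mu M (pc M)).real (Cn M (Bo 0 l) 0 (sw i j w0)) := by rwa [Cn_sw]
  by_cases h : sw i j w0 i = s * l
  · exact ⟨_, hB1, h, hq1⟩
  · refine ⟨rf i (sw i j w0), (rf_mem i l _).2 hB1, ?_, by rwa [Cn_rf]⟩
    rw [rf_apply, if_pos rfl]
    rw [hv] at h ⊢
    rcases abs_eq (Nat.cast_nonneg l) |>.1 hj with h1 | h1 <;> rcases hs with rfl | rfl <;>
      rw [h1] at h ⊢ <;> simp at h ⊢

lemma two_step (hphi : S_phi) (hd : 1 ≤ d) (M : Mod d) (hM : Nd M) (l : ℕ) (i : Fin d) (s : ℤ)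
    (hs : s = 1 ∨ s = -1) (x : Z d) {R : Set (Z d)} (hR : R.Finite) (h1 : Bo x l ⊆ R)
    (h2 : Bo (x + Pi.single i (2 * s * l)) l ⊆ R) :
    ql d l ^ 2 ≤ (mu M (pc M)).real (Cn M R x (x + Pi.single i (2 * s * l))) := by
  obtain ⟨w, hw, hwi, hq⟩ := axis hphi hd M hM l i s hs
  set v : Z d := Pi.single i (2 * s * l) with hv
  have e1 : rf i w + v = w := by
    funext l'
    rw [Pi.add_apply, rf_apply, hv]
    by_cases h : l' = i
    · subst h
      rw [if_pos rfl, Pi.single_eq_same, hwi]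
      ring
    · rw [if_neg h, Pi.single_eq_of_ne h, add_zero]
  have a1 : ql d l ≤ (mu M (pc M)).real (Cn M R x (w + x)) := by
    refine le_trans ?_ (Cn_mono M (pc M) h1 _ _)
    have := Cn_shift M (pc M) x (Bo 0 l) 0 w
    rw [sf_image_Bo, zero_add] at this
    rw [this]
    exact hq
  have a2 : ql d l ≤ (mu M (pc M)).real (Cn M R (x + v) (w + x)) := by
    refine le_trans ?_ (Cn_mono M (pc M) h2 _ _)
    have := Cn_shift M (pc M) (x + v) (Bo 0 l) 0 (rf i w)
    have e2 : rf i w + (x + v) = w + x := by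
      rw [add_comm x v, ← add_assoc, e1]
    rw [sf_image_Bo, zero_add, e2] at this
    rw [this, Cn_rf]
    exact hq
  have a3 : (mu M (pc M)).real (Cn M R (w + x) (x + v)) =
      (mu M (pc M)).real (Cn M R (x + v) (w + x)) := by
    congr 1
    ext ω
    exact ⟨fun h => SimpleGraph.Reachable.symm h, fun h => SimpleGraph.Reachable.symm h⟩
  calc ql d l ^ 2 = ql d l * ql d l := sq _
    _ ≤ (mu M (pc M)).real (Cn M R x (w + x)) * (mu M (pc M)).real (Cn M R (w + x) (x + v)) := by
        rw [a3]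
        exact mul_le_mul a1 a2 (ql_pos hd l).le measureReal_nonneg
    _ ≤ _ := Cn_trans M (pc M) hR _ _ _

/-- Changing one coordinate. -/
lemma one_coord (hphi : S_phi) (hd : 1 ≤ d) (M : Mod d) (hM : Nd M) (n : ℕ) (z x : Z d)
    (i : Fin d) (t : ℤ) (hx : x ∈ Bo z n) (hy : Function.update x i t ∈ Bo z n) :
    ql d n ^ 2 * (pc M : ℝ) ^ 2 ≤
      (mu M (pc M)).real (Cn M (Bo z (4 * n)) x (Function.update x i t)) := by
  have hxi := abs_le.1 (hx i)
  have hyi := abs_le.1 (hy i)
  rw [Function.update_self] at hyi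
  -- sign and length
  obtain ⟨s, hs, k, hk⟩ : ∃ s : ℤ, (s = 1 ∨ s = -1) ∧ ∃ k : ℕ, t - x i = s * k := by
    rcases le_total (x i) t with h | h
    · exact ⟨1, Or.inl rfl, (t - x i).toNat, by rw [Int.toNat_of_nonneg (by linarith)]; ring⟩
    · exact ⟨-1, Or.inr rfl, (x i - t).toNat, by rw [Int.toNat_of_nonneg (by linarith)]; ring⟩
  obtain ⟨l, r, hr, hlr⟩ : ∃ l r : ℕ, r < 2 ∧ k = 2 * l + r := ⟨k / 2, k % 2, by omega, by omega⟩
  have hk2 : k ≤ 2 * n := by
    rcases hs with rfl | rfl <;> omega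
  have hln : l ≤ n := by omega
  set x1 : Z d := x + Pi.single i (2 * s * l) with hx1
  have hx1i : x1 i = x i + 2 * s * l := by rw [hx1, Pi.add_apply, Pi.single_eq_same]
  have hx1j : ∀ j, j ≠ i → x1 j = x j := by
    intro j hj
    rw [hx1, Pi.add_apply, Pi.single_eq_of_ne hj, add_zero]
  have hx1B : x1 ∈ Bo z n := by
    intro j
    by_cases hj : j = i
    · subst hj
      rw [hx1i, abs_le]
      rcases hs with rfl | rfl <;> constructor <;> omega
    · rw [hx1j j hj]
      exact hx j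
  have hfin := Bo_finite z (4 * n)
  have p0 := (pc M).2.1
  have p1 := (pc M).2.2
  have q0 := (ql_pos hd n).le
  have q1 := ql_le_one hd n
  -- first part
  have f1 : ql d n ^ 2 ≤ (mu M (pc M)).real (Cn M (Bo z (4 * n)) x x1) := by
    refine (pow_le_pow_left₀ q0 (ql_anti hd hln) 2).trans ?_
    exact two_step hphi hd M hM l i s hs x hfin (Bo_sub hx (by omega)) (Bo_sub hx1B (by omega))
  -- second part
  have f2 : (pc M : ℝ) ^ 2 ≤
      (mu M (pc M)).real (Cn M (Bo z (4 * n)) x1 (Function.update x i t)) := by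
    interval_cases r
    · have e : x1 = Function.update x i t := by
        funext j
        by_cases hj : j = i
        · subst hj
          rw [Function.update_self, hx1i]
          rcases hs with rfl | rfl <;> omega
        · rw [Function.update_of_ne hj, hx1j j hj]
      rw [← e, Cn_self]
      exact pow_le_one₀ p0 p1
    · apply edge_le M (pc M) _ (Bo_mono z (by omega) hx1B) (Bo_mono z (by omega) hy)
      unfold Nb
      rw [Finset.sum_eq_single i]
      · rw [Function.update_self, hx1i]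
        rcases hs with rfl | rfl
        · rw [show x i + 2 * 1 * (l : ℤ) - t = -1 by omega]; rfl
        · rw [show x i + 2 * (-1) * (l : ℤ) - t = 1 by omega]; rfl
      · intro j _ hj
        rw [Function.update_of_ne hj, hx1j j hj, sub_self, abs_zero]
      · intro h
        exact absurd (Finset.mem_univ i) h
  calc ql d n ^ 2 * (pc M : ℝ) ^ 2
      ≤ (mu M (pc M)).real (Cn M (Bo z (4 * n)) x x1) *
        (mu M (pc M)).real (Cn M (Bo z (4 * n)) x1 (Function.update x i t)) :=
        mul_le_mul f1 f2 (by positivity) measureReal_nonneg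
    _ ≤ _ := Cn_trans M (pc M) hfin _ _ _

/-- Changing the coordinates of a set. -/
lemma many_coord (hphi : S_phi) (hd : 1 ≤ d) (M : Mod d) (hM : Nd M) (n : ℕ) (z x y : Z d)
    (hx : x ∈ Bo z n) (hy : y ∈ Bo z n) (F : Finset (Fin d)) :
    (ql d n ^ 2 * (pc M : ℝ) ^ 2) ^ F.card ≤
      (mu M (pc M)).real (Cn M (Bo z (4 * n)) x (fun j => if j ∈ F then y j else x j)) := by
  classical
  induction F using Finset.induction_on with
  | empty => simp [Cn_self]
  | insert i F hi ih =>
    rw [Finset.card_insert_of_notMem hi, pow_succ]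
    set u : Z d := fun j => if j ∈ F then y j else x j with hu
    have e : (fun j => if j ∈ insert i F then y j else x j) = Function.update u i (y i) := by
      funext j
      by_cases hj : j = i
      · subst hj
        simp
      · rw [Function.update_of_ne hj, hu]
        simp [hj]
    have huB : u ∈ Bo z n := by
      intro j
      rw [hu]
      by_cases hj : j ∈ F
      · simp only [hj, if_true]; exact hy j
      · simp only [hj, if_false]; exact hx j
    have hvB : Function.update u i (y i) ∈ Bo z n := by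
      intro j
      by_cases hj : j = i
      · subst hj
        rw [Function.update_self]; exact hy j
      · rw [Function.update_of_ne hj]; exact huB j
    rw [e]
    have h1 := one_coord hphi hd M hM n z u i (y i) huB hvB
    have p0 := (pc M).2.1
    have q0 := (ql_pos hd n).le
    exact (mul_le_mul ih h1 (by positivity) measureReal_nonneg).trans
      (Cn_trans M (pc M) (Bo_finite z (4 * n)) _ _ _)

theorem tau (hphi : S_phi) (hpos : ∀ (d : ℕ) (M : Mod d), Nd M → 0 < pc M) : S_tau := by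
  intro d M hd hM
  have hp : 0 < (pc M : ℝ) := hpos d M hM
  refine ⟨hpos d M hM, (pc M : ℝ) ^ (2 * d) / ((2 * d : ℝ) ^ (2 * d) * 3 ^ (2 * d ^ 2)), ?_, ?_⟩
  · have : (0 : ℝ) < d := by exact_mod_cast hd
    positivity
  · intro n z x y hn hx hy
    have h := many_coord hphi hd M hM n z x y hx hy Finset.univ
    simp only [Finset.mem_univ, if_true, Finset.card_univ, Fintype.card_fin] at h
    refine le_trans ?_ h
    have hd0 : (0 : ℝ) < d := by exact_mod_cast hd
    have hn1 : (1 : ℝ) ≤ n := by exact_mod_cast hn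
    have e1 : (ql d n ^ 2 * (pc M : ℝ) ^ 2) ^ d =
        (pc M : ℝ) ^ (2 * d) / ((2 * d : ℝ) ^ (2 * d) * (2 * n + 1) ^ (2 * d ^ 2)) := by
      unfold ql
      rw [mul_pow, ← pow_mul, ← pow_mul, div_pow, one_pow, mul_pow, ← pow_mul,
        show d * (2 * d) = 2 * d ^ 2 by ring]
      field_simp
    rw [e1, div_div]
    apply div_le_div_of_nonneg_left (by positivity) (by positivity)
    have h3 : ((2 * n + 1 : ℝ)) ^ (2 * d ^ 2) ≤ (3 * n) ^ (2 * d ^ 2) :=
      pow_le_pow_left₀ (by positivity) (by linarith) _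
    calc (2 * d : ℝ) ^ (2 * d) * (2 * n + 1) ^ (2 * d ^ 2)
        ≤ (2 * d : ℝ) ^ (2 * d) * (3 * n) ^ (2 * d ^ 2) :=
          mul_le_mul_of_nonneg_left h3 (by positivity)
      _ = _ := by rw [mul_pow (3 : ℝ)]; ring

end

end Pool.Agent.Y529.CB
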